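import Pool.Agent.Helper63.LT.Sp
import Pool.Agent.Helper63.LT.Pat
import Pool.Agent.Helper63.LT.Map
import Pool.Agent.Helper63.LT.Grp
import Pool.Agent.Helper63.LT.Add
import Pool.Agent.Helper63.LT.Chain
import Pool.Agent.Helper63.LT.Norm
import Pool.Agent.Helper63.LT.Ind
import Pool.Agent.Helper63.LT.Field
import Pool.Agent.Helper63.LT.Rank
import Pool.Agent.Helper63.LT.MainI
import Pool.Agent.Helper63.LT.MainSt
import Pool.Agent.Helper63.LT.Fam
import Pool.Agent.Helper18.BV.Final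

/-!
# Primitive points on the curves `y² = x³ + a x`

`EF a b` is the curve `y² = x³ + a x + b`, `AtF P x y` says that `P` is the affine point `(x, y)`,
`Primitive a P p` says that `p` is a prime that does not divide `2 a` and that the reduction of `P`
modulo `p` generates the group of points of `y² = x³ + a x` over `ZMod p`, and `pt n` is the point
`(-1, n)` of `y² = x³ - (n² + 1) x`.

The first part: there is an absolute constant `C` such that, for independent points on pairwise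
inequivalent curves `y² = x³ + a x` (with a condition that excludes obstructions), there are for
arbitrarily large `z` at least `c z / (log z)²` primes `p ≤ z` modulo which at least `(N - C) / 4`
of the `N` points generate the group of points. The second part: for all but `C` of the `n ≥ 1` with
`n² + 1` not divisible by the fourth power of a prime, the point `(-1, n)` generates the group of
points of `y² = x³ - (n² + 1) x` modulo `p` for at least `c z / (log z)²` primes `p ≤ z`, for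
arbitrarily large `z`.
-/

set_option autoImplicit false

namespace Pool.Agent.Helper63.Old.SimultaneousPrimitivePoints

open WeierstrassCurve Pool.Agent.Helper10.SS Pool.Agent.Helper63.LT

theorem result :
    (∃ C : ℕ, ∀ (m : ℕ) (a : Fin m → ℤ) (k : Fin m → ℕ)
      (P : ∀ i, Fin (k i) → (EF (a i : ℚ) 0).Point),
      (∀ i j, i ≠ j → ∀ r : ℚ, (a i : ℚ) ≠ r ^ 4 * a j ∧ (a i : ℚ) ≠ -4 * r ^ 4 * a j) →
      (∀ i, LinearIndependent ℤ (P i)) →
      (∀ i, ∀ r : ℚ, (-a i : ℚ) ≠ r ^ 2 ∧ (-a i : ℚ) ≠ -3 * r ^ 2) →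
      (∀ i j x y, AtF (P i j) x y → ∀ r : ℚ, x ≠ r ^ 2 ∧ x ≠ -3 * r ^ 2 ∧
        a i * x ≠ r ^ 2 ∧ a i * x ≠ -3 * r ^ 2) →
      ∃ c : ℝ, 0 < c ∧ ∀ z0 : ℝ, ∃ z : ℝ, z0 ≤ z ∧
        c * z / Real.log z ^ 2 ≤ ({p : ℕ | p.Prime ∧ (p : ℝ) ≤ z ∧ ∑ i, k i ≤
          4 * {ij : Σ i, Fin (k i) | Primitive (a ij.1) (P ij.1 ij.2) p}.ncard + C}.ncard : ℝ)) ∧
    (∃ C : ℕ, {n : ℕ | ∃ hn : (n : ℤ) ≠ 0, (∀ q : ℕ, q.Prime → ¬ q ^ 4 ∣ n ^ 2 + 1) ∧
      ¬ ∃ c : ℝ, 0 < c ∧ ∀ z0 : ℝ, ∃ z : ℝ, z0 ≤ z ∧ c * z / Real.log z ^ 2 ≤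
        ({p : ℕ | (p : ℝ) ≤ z ∧
          Primitive (-((n : ℤ) ^ 2 + 1)) (pt n hn) p}.ncard : ℝ)}.encard ≤ C) := by
  have hS : SpecialPlus := specialPlus Pool.Agent.Helper18.BV.bv Pool.Agent.Helper44.BV.mass
    Pool.Agent.Helper28.BV.sieveW
  have hR : RankEC := rankEC (chain addStep) normCount (indepL mapHom) fieldEx matching mapHom grp
  have hM : MainSt := mainSt (mainI hS patternInt grp hR)
  exact ⟨hM, family hM⟩

end Pool.Agent.Helper63.Old.SimultaneousPrimitivePoints
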